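import Pool.Agent.H.MP_d75d7a_an.Rigid

set_option autoImplicit false

namespace Pool.Agent.H.MP_d75d7a_an

open Finset Filter Topology

theorem levi (σ : Equiv.Perm ℕ) (hσ : ∀ b : ℕ → ℝ,
    (∃ M : ℝ, Tendsto (fun n => ∑ i ∈ range n, b i) atTop (𝓝 M)) →
      ∃ M : ℝ, Tendsto (fun n => ∑ i ∈ range n, b (σ i)) atTop (𝓝 M)) :
    ∃ K : ℕ, ∀ t, ∃ B : Finset ℕ, B.card ≤ K ∧
      ∀ i, i ∉ B → (σ.symm i < t ↔ σ.symm (i + 1) < t) := by
  classical
  let ev : ℕ → ZeroAtInftyContinuousMap ℕ ℝ →L[ℝ] ℝ := fun i =>
    LinearMap.mkContinuous ⟨⟨fun f => f i, fun _ _ => rfl⟩, fun _ _ => rfl⟩ 1 fun f => by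
      rw [one_mul]; exact f.toBCF.norm_coe_le_norm i
  let φ : ℕ → ZeroAtInftyContinuousMap ℕ ℝ →L[ℝ] ℝ := fun t =>
    ∑ i ∈ range t, (ev (σ i + 1) - ev (σ i))
  have hφ : ∀ t f, φ t f = ∑ i ∈ range t, (f (σ i + 1) - f (σ i)) := fun t f => by
    simp only [φ, ContinuousLinearMap.sum_apply, ContinuousLinearMap.sub_apply]; rfl
  obtain ⟨C, hC⟩ := banach_steinhaus (g := φ) fun f => by
    have h0 : Tendsto f atTop (𝓝 0) := by
      have := f.zero_at_infty'
      rwa [cocompact_eq_cofinite, Nat.cofinite_eq_atTop] at this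
    obtain ⟨M, hM⟩ := hσ (fun i => f (i + 1) - f i) ⟨0 - f 0, by
      simp only [sum_range_sub]; exact h0.sub tendsto_const_nhds⟩
    obtain ⟨C, hC⟩ := hM.norm.bddAbove_range
    exact ⟨C, fun t => hC ⟨t, by simp only [hφ]⟩⟩
  have key : ∀ (t : ℕ) (A : Finset ℕ) (c : ℝ), |c| = 1 →
      ∑ i ∈ range t, ((if σ i + 1 ∈ A then c else 0) - (if σ i ∈ A then c else 0)) ≤ C := by
    intro t A c hc
    let f : ZeroAtInftyContinuousMap ℕ ℝ := ⟨⟨fun i => if i ∈ A then c else 0,
      continuous_of_discreteTopology⟩, by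
        rw [cocompact_eq_cofinite, Nat.cofinite_eq_atTop]
        refine tendsto_const_nhds.congr' ?_
        filter_upwards [eventually_gt_atTop (A.sup id)] with i hi
        rw [if_neg fun h => absurd (le_sup (f := id) h) (not_le.2 hi)]⟩
    have h1 : ‖f‖ ≤ 1 := by
      refine (BoundedContinuousFunction.norm_le zero_le_one).2 fun i => ?_
      change ‖if i ∈ A then c else 0‖ ≤ 1
      split_ifs
      · exact hc.le
      · simp
    have h2 := (φ t).le_of_opNorm_le_of_le (hC t) h1
    rw [mul_one, hφ] at h2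
    exact le_trans (le_abs_self _) h2
  refine ⟨2 * ⌈C⌉₊, fun t => ?_⟩
  let A := (range t).image σ
  have hA : ∀ i, i ∈ A ↔ σ.symm i < t := fun i => by
    simp only [A, mem_image, mem_range]
    exact ⟨fun ⟨j, h1, h2⟩ => by rw [← h2]; simpa using h1, fun h => ⟨_, h, by simp⟩⟩
  have hA' : ∀ i ∈ range t, σ i ∈ A := fun i hi => mem_image_of_mem _ hi
  let R := (range t).filter fun i => σ i + 1 ∉ A
  let L := (range t).filter fun i => σ i ∉ A.image (· + 1)
  have hR : R.card ≤ ⌈C⌉₊ := by
    have := key t A (-1) (by simp)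
    rw [sum_congr rfl (g := fun i => if σ i + 1 ∉ A then 1 else 0) (fun i hi => by
      rw [if_pos (hA' i hi)]; split_ifs <;> simp), sum_boole] at this
    exact_mod_cast this.trans (Nat.le_ceil C)
  have hL : L.card ≤ ⌈C⌉₊ := by
    have := key t (A.image (· + 1)) 1 (by simp)
    rw [sum_congr rfl (g := fun i => if σ i ∉ A.image (· + 1) then 1 else 0) (fun i hi => by
      rw [if_pos (mem_image_of_mem _ (hA' i hi))]; split_ifs <;> simp), sum_boole] at this
    exact_mod_cast this.trans (Nat.le_ceil C)
  refine ⟨R.image σ ∪ L.image fun i => σ i - 1, ?_, fun i hi => ?_⟩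
  · have := card_union_le (R.image σ) (L.image fun i => σ i - 1)
    have := card_image_le (s := R) (f := σ)
    have := card_image_le (s := L) (f := fun i => σ i - 1)
    omega
  · rw [mem_union, not_or] at hi
    constructor
    · intro h
      by_contra h'
      exact hi.1 (mem_image.2 ⟨σ.symm i, mem_filter.2 ⟨mem_range.2 h, by
        rw [Equiv.apply_symm_apply, hA]; exact h'⟩, by simp⟩)
    · intro h
      by_contra h'
      refine hi.2 (mem_image.2 ⟨σ.symm (i + 1), mem_filter.2 ⟨mem_range.2 h, ?_⟩, by simp⟩)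
      rw [Equiv.apply_symm_apply, mem_image]
      rintro ⟨j, hj, e⟩
      rw [Nat.add_right_cancel e, hA] at hj
      exact h' hj

def pos (s : Bool) (x : ℕ) : ℕ := (if s then TT (idx TT x) else TT (idx TT x + 1)) + x

theorem idxT (x : ℕ) : TT (idx TT x) ≤ x ∧ x < TT (idx TT x + 1) :=
  idx_spec TT_mono (Nat.zero_le x)

theorem pos_mono (s : Bool) : StrictMono (pos s) := by
  refine strictMono_nat_of_lt_succ fun x => ?_
  have h1 := idxT x
  have h2 := idxT (x + 1)
  have h3 : idx TT x < idx TT (x + 1) + 1 := TT_mono.lt_iff_lt.1 (by omega)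
  have h4 := TT_mono.monotone (show idx TT x ≤ idx TT (x + 1) by omega)
  have h5 := TT_mono.monotone (show idx TT x + 1 ≤ idx TT (x + 1) + 1 by omega)
  cases s <;> simp only [pos, if_true, Bool.false_eq_true, if_false] <;> omega

theorem pos_bij : Function.Bijective fun q : Bool × ℕ => pos q.1 q.2 := by
  have hne : ∀ x y, pos true x ≠ pos false y := by
    intro x y e
    have h1 := idxT x
    have h2 := idxT y
    simp only [pos, if_true, Bool.false_eq_true, if_false] at e
    rcases lt_trichotomy (idx TT x) (idx TT y) with h | h | h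
    · have := TT_mono.monotone (show idx TT x + 1 ≤ idx TT y from h); omega
    · rw [h] at e h1; omega
    · have := TT_mono.monotone (show idx TT y + 1 ≤ idx TT x from h); omega
  constructor
  · rintro ⟨s, x⟩ ⟨s', y⟩ e
    cases s <;> cases s'
    · exact Prod.ext rfl ((pos_mono false).injective e)
    · exact absurd e.symm (hne _ _)
    · exact absurd e (hne _ _)
    · exact Prod.ext rfl ((pos_mono true).injective e)
  · intro i
    have h1 := idxT (i / 2)
    set n := idx TT (i / 2)
    by_cases h : i < TT n + TT (n + 1)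
    · refine ⟨(true, i - TT n), ?_⟩
      simp only [pos, if_true]
      rw [idx_eq TT_mono (i := n) (by omega) (by omega)]; omega
    · refine ⟨(false, i - TT (n + 1)), ?_⟩
      simp only [pos, Bool.false_eq_true, if_false]
      rw [idx_eq TT_mono (i := n) (by omega) (by omega)]; omega

noncomputable def ee : Bool × ℕ ≃ ℕ := Equiv.ofBijective _ pos_bij

noncomputable def bb (i : ℕ) : ℝ := (if (ee.symm i).1 then 1 else -1) * aa (ee.symm i).2

theorem bb_pos (s : Bool) (x : ℕ) : bb (pos s x) = (if s then 1 else -1) * aa x := by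
  have : ee.symm (pos s x) = (s, x) := ee.symm_apply_apply (s, x)
  rw [bb, this]

theorem no_other {L : ℝ} (σ : Equiv.Perm ℕ) (hσ : ∀ b : ℕ → ℝ,
    (∃ M : ℝ, Tendsto (fun n => ∑ i ∈ range n, b i) atTop (𝓝 M)) →
      ∃ M : ℝ, Tendsto (fun n => ∑ i ∈ range n, b (σ i)) atTop (𝓝 M))
    (hL : Tendsto (fun n => ∑ i ∈ range n, bb (σ i)) atTop (𝓝 L)) : L = 0 := by
  classical
  obtain ⟨K, hK⟩ := levi σ hσ
  choose B hB1 hB2 using hK
  let S : Sys :=
    { τ := fun s z => σ.symm (pos s z)
      K := 2 * K
      J := fun t => (B t).image (idx (pos true)) ∪ (B t).image (idx (pos false))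
      F := fun n => ∑ i ∈ range n, bb (σ i)
      inj := fun s z s' z' e =>
        congrArg Prod.snd (pos_bij.1 (a₁ := (s, z)) (a₂ := (s', z')) (σ.symm.injective e))
      fin := fun t => ⟨(range t).sup σ + 1, fun s z hz => by
        by_contra h
        have h1 := le_sup (f := σ) (mem_range.2 (not_le.1 h))
        have h2 := (pos_mono s).id_le z
        rw [Equiv.apply_symm_apply] at h1
        simp only [id] at h2
        omega⟩
      card := fun t => by
        have := card_union_le ((B t).image (idx (pos true))) ((B t).image (idx (pos false)))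
        have := card_image_le (s := B t) (f := idx (pos true))
        have := card_image_le (s := B t) (f := idx (pos false))
        have := hB1 t
        omega
      jump := fun t s z hz => by
        refine no_jump (P := fun i => σ.symm i < t) ((pos_mono s).monotone (Nat.le_succ z))
          fun j j1 j2 => hB2 t j fun hj => hz ?_
        have := mem_image_of_mem (idx (pos s)) hj
        rw [idx_eq (pos_mono s) j1 j2] at this
        cases s
        · exact mem_union_right _ this
        · exact mem_union_left _ this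
      sum := fun t Y hY => by
        have e1 : ∑ i ∈ range t, bb (σ i) = ∑ q ∈ ((univ : Finset Bool) ×ˢ range Y).filter
            (fun q => σ.symm (pos q.1 q.2) < t), bb (pos q.1 q.2) := by
          refine (sum_bij (fun q _ => σ.symm (pos q.1 q.2)) ?_ ?_ ?_ ?_).symm
          · intro q hq; exact mem_range.2 (mem_filter.1 hq).2
          · intro q _ q' _ e; exact pos_bij.1 (σ.symm.injective e)
          · intro i hi
            obtain ⟨q, hq⟩ := pos_bij.2 (σ i)
            simp only at hq
            have h1 : σ.symm (pos q.1 q.2) = i := by rw [hq]; simp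
            refine ⟨q, mem_filter.2 ⟨mem_product.2 ⟨mem_univ _, mem_range.2 ?_⟩, ?_⟩, h1⟩
            · by_contra h
              have := hY q.1 q.2 (not_lt.1 h)
              have := mem_range.1 hi
              omega
            · rw [h1]; exact mem_range.1 hi
          · intro q _; simp
        rw [e1, sum_filter, sum_product, Fintype.sum_bool, ← sum_add_distrib]
        refine sum_congr rfl fun z _ => ?_
        simp only [bb_pos]
        split_ifs <;> simp_all }
  exact S.rigid hL

def il : ℕ ≃ Bool × ℕ where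
  toFun k := (decide (k % 2 = 0), k / 2)
  invFun q := 2 * q.2 + if q.1 then 0 else 1
  left_inv k := by
    by_cases h : k % 2 = 0 <;> simp [h] <;> omega
  right_inv := by
    rintro ⟨s, x⟩
    cases s <;> simp <;> omega

noncomputable def s0 : Equiv.Perm ℕ := il.trans ee

theorem s0_sum (c : ℕ → ℝ) (k : ℕ) : ∑ i ∈ range k, c (s0 i) =
    ∑ x ∈ range (k / 2), (c (pos true x) + c (pos false x)) +
      if k % 2 = 0 then 0 else c (pos true (k / 2)) := by
  induction k with
  | zero => simp
  | succ k ih =>
    rw [sum_range_succ, ih]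
    have e : s0 k = pos (decide (k % 2 = 0)) (k / 2) := rfl
    by_cases h : k % 2 = 0
    · rw [e, if_pos h, if_neg (by omega), show (k + 1) / 2 = k / 2 by omega]
      simp [h]
    · rw [e, if_neg h, if_pos (by omega), show (k + 1) / 2 = k / 2 + 1 by omega, sum_range_succ]
      simp [h, add_assoc]

theorem blocks (c : ℕ → ℝ) (n : ℕ) : ∀ m, TT n ≤ m → m ≤ TT (n + 1) →
    ∑ x ∈ range m, (c (pos true x) + c (pos false x)) =
      ps c (TT n + m) + ps c (TT (n + 1) + m) - ps c (TT n + TT (n + 1)) := by
  have step : ∀ n, (∑ x ∈ range (TT n), (c (pos true x) + c (pos false x)) = ps c (TT n + TT n)) →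
      ∀ m, TT n ≤ m → m ≤ TT (n + 1) → ∑ x ∈ range m, (c (pos true x) + c (pos false x)) =
        ps c (TT n + m) + ps c (TT (n + 1) + m) - ps c (TT n + TT (n + 1)) := by
    intro n h m hm
    induction m, hm using Nat.le_induction with
    | base => intro _; rw [h, add_comm (TT (n + 1))]; ring
    | succ m hm ih =>
      intro h1
      rw [sum_range_succ, ih (by omega)]
      simp only [pos, idx_eq TT_mono hm (show m < TT (n + 1) by omega), if_true,
        Bool.false_eq_true, if_false, ps, ← add_assoc, sum_range_succ]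
      ring
  refine step n ?_
  induction n with
  | zero => simp [TT, ps]
  | succ n ih => rw [step n ih _ (TT_mono.monotone (Nat.le_succ n)) le_rfl]; ring

theorem half_top : Tendsto (fun k : ℕ => k / 2) atTop atTop :=
  tendsto_atTop.2 fun b => eventually_atTop.2 ⟨2 * b, fun k hk => by omega⟩

theorem s0_tendsto {c : ℕ → ℝ} {M : ℝ} (h1 : Tendsto (fun x => c (pos true x)) atTop (𝓝 0))
    (h2 : Tendsto (fun m => ∑ x ∈ range m, (c (pos true x) + c (pos false x))) atTop (𝓝 M)) :
    Tendsto (fun k => ∑ i ∈ range k, c (s0 i)) atTop (𝓝 M) := by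
  simp only [s0_sum]
  rw [← add_zero M]
  refine (h2.comp half_top).add (squeeze_zero_norm (fun k => ?_)
    (by simpa using (h1.comp half_top).norm))
  split_ifs <;> simp

theorem s0_pres (c : ℕ → ℝ) (hc : ∃ M : ℝ, Tendsto (fun n => ∑ i ∈ range n, c i) atTop (𝓝 M)) :
    ∃ M : ℝ, Tendsto (fun n => ∑ i ∈ range n, c (s0 i)) atTop (𝓝 M) := by
  obtain ⟨M, hM⟩ := hc
  refine ⟨M + M - M, s0_tendsto ?_ ?_⟩
  · have h1 : Tendsto c atTop (𝓝 (M - M)) := by
      refine ((hM.comp (tendsto_add_atTop_nat 1)).sub hM).congr fun n => ?_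
      simp [sum_range_succ]
    rw [sub_self] at h1
    exact h1.comp (pos_mono true).tendsto_atTop
  · have h : ∀ g : ℕ → ℕ, (∀ m, m ≤ g m) → Tendsto (fun m => ps c (g m)) atTop (𝓝 M) :=
      fun g hg => hM.comp (tendsto_atTop_mono hg tendsto_id)
    refine (((h (fun m => TT (idx TT m) + m) fun m => by omega).add
      (h (fun m => TT (idx TT m + 1) + m) fun m => by omega)).sub
      (h (fun m => TT (idx TT m) + TT (idx TT m + 1)) fun m => by
        have := idxT m; omega)).congr fun m => ?_
    exact (blocks c _ m (idxT m).1 (idxT m).2.le).symm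

theorem bb_pair (m : ℕ) : ∑ x ∈ range m, (bb (pos true x) + bb (pos false x)) = 0 :=
  sum_eq_zero fun x _ => by simp [bb_pos]

theorem s0_zero : Tendsto (fun n => ∑ i ∈ range n, bb (s0 i)) atTop (𝓝 0) := by
  refine s0_tendsto ?_ (by simp only [bb_pair]; exact tendsto_const_nhds)
  simp only [bb_pos, if_true, one_mul]
  refine Metric.tendsto_atTop.2 fun ε hε => ?_
  obtain ⟨x0, h⟩ := aa_small (half_pos hε)
  exact ⟨x0, fun x hx => by rw [Real.dist_eq, sub_zero]; linarith [h x hx]⟩

theorem bb_div : ¬ ∃ L : ℝ, Tendsto (fun n => ∑ i ∈ range n, bb i) atTop (𝓝 L) := by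
  rintro ⟨L, hL⟩
  have h : ∀ g : ℕ → ℕ, (∀ m, m ≤ g m) → Tendsto (fun m => ps bb (g m)) atTop (𝓝 L) :=
    fun g hg => hL.comp (tendsto_atTop_mono hg tendsto_id)
  have h1 := (h (fun n => TT n + TT (n + 1)) fun n => by
    have := TT_mono.id_le n; simp only [id] at this; omega).sub
    (h (fun n => TT n + TT n) fun n => by have := TT_mono.id_le n; simp only [id] at this; omega)
  have h2 : ∀ n, ps bb (TT n + TT (n + 1)) - ps bb (TT n + TT n) = 1 := by
    intro n
    have key : ∀ m, TT n ≤ m → m ≤ TT (n + 1) →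
        ps bb (TT n + m) - ps bb (TT n + TT n) = ps aa m - ps aa (TT n) := by
      intro m hm
      induction m, hm using Nat.le_induction with
      | base => intro _; simp
      | succ m hm ih =>
        intro h1
        have e := bb_pos true m
        simp only [pos, idx_eq TT_mono hm (show m < TT (n + 1) by omega), if_true, one_mul] at e
        have := ih (by omega)
        simp only [ps, ← add_assoc, sum_range_succ, e] at this ⊢
        linarith
    rw [key _ (TT_mono.monotone (Nat.le_succ n)) le_rfl, (aa_good n).1]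
  simp only [h2, sub_self] at h1
  exact one_ne_zero (tendsto_nhds_unique tendsto_const_nhds h1)

end Pool.Agent.H.MP_d75d7a_an
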