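import Mathlib

set_option autoImplicit false

namespace Pool.Agent.H.MP_d75d7a_an

open Finset

noncomputable def ps (a : ℕ → ℝ) (x : ℕ) : ℝ := ∑ i ∈ range x, a i

def Rich (s : ℕ → ℝ) (R : ℕ) (g : ℝ) (x y : ℕ) : Prop :=
  ∃ (b N : ℕ) (p : ℕ → ℕ), x ≤ b ∧ R * (b + 1) ≤ N ∧ b ≤ p 0 ∧ StrictMono p ∧ p N ≤ y ∧
    ∀ i < N, g ≤ |s (p (i + 1)) - s (p i)|

theorem Rich.mono {s : ℕ → ℝ} {R R' : ℕ} {g : ℝ} {x y x' y' : ℕ} (h : Rich s R g x y)
    (hR : R' ≤ R) (hx : x' ≤ x) (hy : y ≤ y') : Rich s R' g x' y' := by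
  obtain ⟨b, N, p, h1, h2, h3, h4, h5, h6⟩ := h
  exact ⟨b, N, p, hx.trans h1, le_trans (Nat.mul_le_mul_right _ hR) h2, h3, h4, h5.trans hy, h6⟩

def GG (s : ℕ → ℝ) (R : ℕ) (g θ : ℝ) (b c : ℕ) : Prop :=
  ∀ x y, b ≤ x → x ≤ y → y ≤ c →
    (4 * θ < |s y - s x| ∨ ((x = b ∨ y = c) ∧ 2 * θ < |s y - s x|) ∨ (x = b ∧ y = c)) →
    Rich s R g x y

theorem glue {s : ℕ → ℝ} {R : ℕ} {g θ : ℝ} {b m c : ℕ} (h1 : GG s R g θ b m) (h2 : GG s R g θ m c)
    (hb : b ≤ m) (hc : m ≤ c) : GG s R g θ b c := by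
  intro x y hx hxy hy h
  by_cases c1 : y ≤ m
  · refine h1 x y hx hxy c1 ?_
    rcases h with h | ⟨h | h, h'⟩ | ⟨h, h'⟩
    · exact Or.inl h
    · exact Or.inr (Or.inl ⟨Or.inl h, h'⟩)
    · exact Or.inr (Or.inl ⟨Or.inr (by omega), h'⟩)
    · exact Or.inr (Or.inr ⟨h, by omega⟩)
  by_cases c2 : m ≤ x
  · refine h2 x y c2 hxy hy ?_
    rcases h with h | ⟨h | h, h'⟩ | ⟨h, h'⟩
    · exact Or.inl h
    · exact Or.inr (Or.inl ⟨Or.inl (by omega), h'⟩)
    · exact Or.inr (Or.inl ⟨Or.inr h, h'⟩)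
    · exact Or.inr (Or.inr ⟨by omega, h'⟩)
  by_cases c3 : x = b
  · exact (h1 b m le_rfl hb le_rfl (Or.inr (Or.inr ⟨rfl, rfl⟩))).mono le_rfl c3.le (by omega)
  by_cases c4 : y = c
  · exact (h2 m c le_rfl hc le_rfl (Or.inr (Or.inr ⟨rfl, rfl⟩))).mono le_rfl (by omega) c4.ge
  have h3 : 4 * θ < |s y - s x| := by tauto
  have h4 := abs_sub_le (s y) (s m) (s x)
  by_cases c5 : 2 * θ < |s m - s x|
  · exact (h1 x m hx (by omega) le_rfl (Or.inr (Or.inl ⟨Or.inr rfl, c5⟩))).mono le_rfl le_rfl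
      (by omega)
  · exact (h2 m y le_rfl (by omega) hy (Or.inr (Or.inl ⟨Or.inl rfl, by linarith⟩))).mono le_rfl
      (by omega) le_rfl

theorem glue_many {s : ℕ → ℝ} {R : ℕ} {g θ : ℝ} {p : ℕ → ℕ} (hp : Monotone p) (M : ℕ)
    (h : ∀ i ≤ M, GG s R g θ (p i) (p (i + 1))) : GG s R g θ (p 0) (p (M + 1)) := by
  induction M with
  | zero => exact h 0 le_rfl
  | succ M ih =>
    exact glue (ih fun i hi => h i (by omega)) (h _ le_rfl) (hp (by omega)) (hp (by omega))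

theorem cover {p : ℕ → ℕ} (M : ℕ) {y : ℕ} (h0 : p 0 ≤ y) (h1 : y ≤ p (M + 1)) :
    ∃ i ≤ M, p i ≤ y ∧ y ≤ p (i + 1) := by
  induction M with
  | zero => exact ⟨0, le_rfl, h0, h1⟩
  | succ M ih =>
    by_cases h : y ≤ p (M + 1)
    · obtain ⟨i, hi, h2⟩ := ih h
      exact ⟨i, by omega, h2⟩
    · exact ⟨M + 1, le_rfl, by omega, h1⟩

def idx (p : ℕ → ℕ) (x : ℕ) : ℕ := Nat.findGreatest (fun i => p i ≤ x) x

theorem idx_eq {p : ℕ → ℕ} (hp : StrictMono p) {i x : ℕ} (h1 : p i ≤ x) (h2 : x < p (i + 1)) :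
    idx p x = i := by
  rw [idx, Nat.findGreatest_eq_iff]
  refine ⟨le_trans (hp.id_le i) h1, fun _ => h1, fun k hk _ hk2 => ?_⟩
  have := hp.monotone (show i + 1 ≤ k from hk)
  omega

theorem idx_spec {p : ℕ → ℕ} (hp : StrictMono p) {x : ℕ} (h0 : p 0 ≤ x) :
    p (idx p x) ≤ x ∧ x < p (idx p x + 1) := by
  have hex : ∃ i, x < p (i + 1) := ⟨x, hp.id_le (x + 1)⟩
  have h1 := Nat.find_spec hex
  have h2 : p (Nat.find hex) ≤ x := by
    rcases Nat.eq_zero_or_pos (Nat.find hex) with h | h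
    · rw [h]; exact h0
    · have := Nat.find_min hex (m := Nat.find hex - 1) (by omega)
      rw [Nat.sub_add_cancel h] at this
      omega
  rw [idx_eq hp h2 h1]
  exact ⟨h2, h1⟩

def EE (n : ℕ) : ℕ → ℕ → ℕ
  | 0, b => b + 1
  | d + 1, b => (EE n d)^[2 * (n * (b + 1)) + 1 + 1] b

theorem iter_mono {f : ℕ → ℕ} (hf : ∀ b, b < f b) (b : ℕ) : StrictMono fun i => f^[i] b :=
  strictMono_nat_of_lt_succ fun i => by
    simp only [Function.iterate_succ_apply']; exact hf _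

theorem lt_EE (n d : ℕ) : ∀ b, b < EE n d b := by
  induction d with
  | zero => intro b; exact Nat.lt_succ_self b
  | succ d ih => intro b; exact iter_mono ih b (Nat.succ_pos _)

noncomputable def pat (N i : ℕ) : ℝ := if i % 2 = 1 ∧ i ≠ 2 * N + 1 then -1 else 1

theorem abs_pat (N i : ℕ) : |pat N i| = 1 := by rw [pat]; split_ifs <;> simp

noncomputable def sgn (n : ℕ) : ℕ → ℕ → ℕ → ℝ
  | 0, _, _ => 1
  | d + 1, b, x => pat (n * (b + 1)) (idx (fun i => (EE n d)^[i] b) x) *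
      sgn n d ((EE n d)^[idx (fun i => (EE n d)^[i] b) x] b) x

theorem abs_sgn (n d : ℕ) : ∀ b x, |sgn n d b x| = 1 := by
  induction d with
  | zero => intro b x; simp [sgn]
  | succ d ih => intro b x; rw [sgn, abs_mul, abs_pat, ih, one_mul]

theorem good (n : ℕ) (a : ℕ → ℝ) (d : ℕ) : ∀ (b : ℕ) (h : ℝ),
    (∀ x, b ≤ x → x < EE n d b → a x = h * sgn n d b x) →
    ps a (EE n d b) - ps a b = 2 ^ d * h ∧
    (∀ y, b ≤ y → y ≤ EE n d b → |ps a y - ps a b| ≤ 2 ^ d * |h|) ∧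
    ∀ e < d, GG (ps a) n (2 ^ e * |h|) (2 ^ (e + 1) * |h|) b (EE n d b) := by
  induction d with
  | zero =>
    intro b h ha
    have h1 : ps a (b + 1) - ps a b = h := by
      rw [ps, ps, sum_range_succ, ha b le_rfl (Nat.lt_succ_self b)]; simp [sgn]
    refine ⟨by simpa [EE] using h1, fun y h2 h3 => ?_, fun e he => absurd he (Nat.not_lt_zero _)⟩
    have : y = b ∨ y = b + 1 := by simp only [EE] at h3; omega
    rcases this with rfl | rfl
    · simp
    · rw [h1]; simp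
  | succ d ih =>
    intro b h ha
    set N := n * (b + 1) with hN
    let p : ℕ → ℕ := fun i => (EE n d)^[i] b
    have hp : StrictMono p := iter_mono (lt_EE n d) b
    have hp1 : ∀ i, p (i + 1) = EE n d (p i) := fun i => Function.iterate_succ_apply' _ _ _
    have hE : EE n (d + 1) b = p (2 * N + 1 + 1) := rfl
    have hp0 : p 0 = b := rfl
    have sub : ∀ i ≤ 2 * N + 1, _ := fun i hi => ih (p i) (h * pat N i) (by
      intro x h1 h2
      rw [← hp1] at h2
      have h3 := hp.monotone (show i + 1 ≤ 2 * N + 1 + 1 by omega)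
      have h4 := hp.monotone (Nat.zero_le i)
      rw [ha x (by omega) (by omega), sgn, idx_eq hp h1 h2, mul_assoc])
    simp only [← hp1, abs_mul, abs_pat, mul_one] at sub
    have cum : ∀ i ≤ 2 * N + 1, ps a (p i) - ps a b = 2 ^ d * h * ((i % 2 : ℕ) : ℝ) := by
      intro i
      induction i with
      | zero => intro _; simp [hp0]
      | succ i ih2 =>
        intro hi
        have h1 := ih2 (by omega)
        have h2 := (sub i (by omega)).1
        rcases Nat.mod_two_eq_zero_or_one i with e | e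
        · have e' : (i + 1) % 2 = 1 := by omega
          rw [pat, if_neg (by omega)] at h2
          rw [e] at h1; rw [e']; push_cast at h1 ⊢; linarith
        · have e' : (i + 1) % 2 = 0 := by omega
          rw [pat, if_pos ⟨e, by omega⟩] at h2
          rw [e] at h1; rw [e']; push_cast at h1 ⊢; linarith
    have rng : ∀ y, b ≤ y → y ≤ EE n (d + 1) b → |ps a y - ps a b| ≤ 2 ^ (d + 1) * |h| := by
      intro y h1 h2
      obtain ⟨i, hi, h3, h4⟩ := cover (p := p) (2 * N + 1) h1 h2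
      have h5 := (sub i hi).2.1 y h3 h4
      have h6 : |ps a (p i) - ps a b| ≤ 2 ^ d * |h| := by
        rw [cum i hi, abs_mul, abs_mul, abs_pow, abs_two]
        refine mul_le_of_le_one_right (by positivity) ?_
        rcases Nat.mod_two_eq_zero_or_one i with e | e <;> rw [e] <;> simp
      have h7 := abs_sub_le (ps a y) (ps a (p i)) (ps a b)
      rw [pow_succ]; linarith
    refine ⟨?_, rng, fun e he => ?_⟩
    · have h1 := cum (2 * N + 1) le_rfl
      have h2 := (sub (2 * N + 1) le_rfl).1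
      rw [pat, if_neg (by omega)] at h2
      rw [show (2 * N + 1) % 2 = 1 by omega] at h1
      rw [hE, pow_succ]; push_cast at h1; linarith
    · rcases (Nat.lt_succ_iff.1 he).lt_or_eq with h1 | rfl
      · exact glue_many hp.monotone _ fun i hi => (sub i hi).2.2 e h1
      · intro x y h1 h2 h3 h4
        have h5 := rng x h1 (h2.trans h3)
        have h6 := rng y (h1.trans h2) h3
        have h7 := abs_sub_le (ps a y) (ps a b) (ps a x)
        rw [abs_sub_comm (ps a b)] at h7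
        have h8 : (0 : ℝ) ≤ 2 ^ (e + 1) * |h| := by positivity
        rcases h4 with h4 | ⟨-, h4⟩ | ⟨h4, h9⟩
        · linarith
        · linarith
        · refine ⟨b, N, p, h4.le, le_rfl, le_rfl, hp, ?_, fun i hi => ?_⟩
          · rw [h9, hE]; exact hp.monotone (by omega)
          · rw [(sub i (by omega)).1, abs_mul, abs_mul, abs_pat, abs_pow, abs_two, mul_one]

def TT : ℕ → ℕ
  | 0 => 0
  | n + 1 => EE n n (TT n)

theorem TT_mono : StrictMono TT := strictMono_nat_of_lt_succ fun n => lt_EE n n _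

noncomputable def aa (x : ℕ) : ℝ := (1 / 2) ^ idx TT x * sgn (idx TT x) (idx TT x) (TT (idx TT x)) x

theorem aa_good (n : ℕ) : ps aa (TT (n + 1)) - ps aa (TT n) = 1 ∧
    ∀ e < n, GG (ps aa) n (2 ^ e * (1 / 2) ^ n) (2 ^ (e + 1) * (1 / 2) ^ n) (TT n) (TT (n + 1)) := by
  obtain ⟨h1, -, h2⟩ := good n aa n (TT n) ((1 / 2) ^ n) fun x h1 h2 => by
    rw [aa, idx_eq TT_mono h1 h2]
  rw [abs_of_pos (by positivity)] at h2
  refine ⟨h1.trans ?_, h2⟩
  rw [← mul_pow]; norm_num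

theorem aa_small {h : ℝ} (hh : 0 < h) : ∃ x0, ∀ x, x0 ≤ x → |aa x| ≤ h := by
  obtain ⟨n, hn⟩ := exists_pow_lt_of_lt_one hh (show (1 / 2 : ℝ) < 1 by norm_num)
  refine ⟨TT n, fun x hx => ?_⟩
  have h1 := (idx_spec TT_mono (show TT 0 ≤ x from Nat.zero_le x)).2
  have h2 : n ≤ idx TT x := by
    have := TT_mono.lt_iff_lt.1 (lt_of_le_of_lt hx h1)
    omega
  rw [aa, abs_mul, abs_sgn, mul_one, abs_of_pos (by positivity)]
  exact le_trans (pow_le_pow_of_le_one (by norm_num) (by norm_num) h2) hn.le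

theorem aa_rich {h : ℝ} (hh : 0 < h) : ∃ g, 0 < g ∧ ∀ R, ∃ x0, ∀ x y, x0 ≤ x → x ≤ y →
    h < |ps aa y - ps aa x| → Rich (ps aa) R g x y := by
  obtain ⟨j, hj⟩ := exists_pow_lt_of_lt_one (show 0 < h / 4 by positivity)
    (show (1 / 2 : ℝ) < 1 by norm_num)
  refine ⟨(1 / 2) ^ (j + 1), by positivity, fun R => ⟨TT (R + j + 1), fun x y h1 h2 h3 => ?_⟩⟩
  have key := glue_many (s := ps aa) (R := R) (g := (1 / 2) ^ (j + 1)) (θ := (1 / 2) ^ j)
    (p := fun i => TT (R + j + 1 + i)) (fun i k hik => TT_mono.monotone (by omega)) y (by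
      intro i _ u v c1 c2 c3 c4
      have h4 := (aa_good (R + j + 1 + i)).2 (R + i) (by omega)
      have e1 : (2 : ℝ) ^ (R + i) * (1 / 2) ^ (R + j + 1 + i) = (1 / 2) ^ (j + 1) := by
        rw [show R + j + 1 + i = (R + i) + (j + 1) by omega, pow_add (1 / 2 : ℝ), ← mul_assoc,
          ← mul_pow]; norm_num
      have e2 : (2 : ℝ) ^ (R + i + 1) * (1 / 2) ^ (R + j + 1 + i) = (1 / 2) ^ j := by
        rw [show R + j + 1 + i = (R + i + 1) + j by omega, pow_add (1 / 2 : ℝ), ← mul_assoc,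
          ← mul_pow]; norm_num
      rw [e1, e2] at h4
      exact (h4 u v c1 c2 c3 c4).mono (by omega) le_rfl le_rfl)
  refine key x y h1 h2 (le_trans (by omega : y ≤ R + j + 1 + (y + 1)) (TT_mono.id_le _))
    (Or.inl (by linarith))

end Pool.Agent.H.MP_d75d7a_an
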