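import Pool.Agent.H.MP_d75d7a_an.Path

set_option autoImplicit false

namespace Pool.Agent.H.MP_d75d7a_an

open Finset Filter Topology

theorem pieces (a f : ℕ → ℝ) (W : Finset ℕ) (hW : ∀ z, z ∉ W → f (z + 1) = f z) {h : ℝ}
    (hh : 0 ≤ h) (y0 : ℕ) {y1 : ℕ} (h01 : y0 ≤ y1)
    (hyp : ∀ x y, y0 ≤ x → x ≤ y → y ≤ y1 → (∀ z, x ≤ z → z < y → f z = f x) →
      |∑ z ∈ Ico x y, a z * f z| ≤ h) :
    |∑ z ∈ Ico y0 y1, a z * f z| ≤ (W.card + 1) * h := by
  have key : ∀ u, y0 ≤ u → u ≤ y1 → ∃ y, y0 ≤ y ∧ y ≤ u ∧ (∀ z, y ≤ z → z ≤ u → f z = f y) ∧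
      |∑ z ∈ Ico y0 y, a z * f z| ≤ (W.filter (· < u)).card * h := by
    intro u hu
    induction u, hu using Nat.le_induction with
    | base =>
      intro _
      refine ⟨y0, le_rfl, le_rfl, fun z h1 h2 => by rw [le_antisymm h2 h1], ?_⟩
      rw [Ico_self, sum_empty, abs_zero]; positivity
    | succ u hu ih =>
      intro h1
      obtain ⟨y, c1, c2, c3, c4⟩ := ih (by omega)
      by_cases hm : u ∈ W
      · refine ⟨u + 1, by omega, le_rfl, fun z h2 h3 => by rw [le_antisymm h3 h2], ?_⟩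
        have e : W.filter (· < u + 1) = insert u (W.filter (· < u)) := by
          ext z; simp only [mem_filter, mem_insert]
          constructor
          · rintro ⟨t1, t2⟩
            by_cases t3 : z = u
            · exact Or.inl t3
            · exact Or.inr ⟨t1, by omega⟩
          · rintro (rfl | ⟨t1, t2⟩)
            · exact ⟨hm, by omega⟩
            · exact ⟨t1, by omega⟩
        rw [e, card_insert_of_notMem (by simp), ← sum_Ico_consecutive _ c1 (by omega : y ≤ u + 1)]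
        have := hyp y (u + 1) c1 (by omega) h1 fun z h2 h3 => c3 z h2 (by omega)
        have := abs_add_le (∑ z ∈ Ico y0 y, a z * f z) (∑ z ∈ Ico y (u + 1), a z * f z)
        push_cast; linarith
      · refine ⟨y, c1, by omega, fun z h2 h3 => ?_, le_trans c4 ?_⟩
        · rcases h3.lt_or_eq with h4 | rfl
          · exact c3 z h2 (by omega)
          · rw [hW u hm]; exact c3 u c2 le_rfl
        · refine mul_le_mul_of_nonneg_right (Nat.cast_le.2 (card_le_card fun z hz => ?_)) hh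
          rw [mem_filter] at hz ⊢
          exact ⟨hz.1, by omega⟩
  obtain ⟨y, c1, c2, c3, c4⟩ := key y1 h01 le_rfl
  rw [← sum_Ico_consecutive _ c1 c2]
  have h1 := hyp y y1 c1 c2 le_rfl fun z h2 h3 => c3 z h2 h3.le
  have h2 := abs_add_le (∑ z ∈ Ico y0 y, a z * f z) (∑ z ∈ Ico y y1, a z * f z)
  have h3 : ((W.filter (· < y1)).card : ℝ) * h ≤ W.card * h :=
    mul_le_mul_of_nonneg_right (Nat.cast_le.2 (card_filter_le _ _)) hh
  linarith

theorem no_jump {P : ℕ → Prop} {u v : ℕ} (huv : u ≤ v)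
    (h : ∀ j, u ≤ j → j < v → (P j ↔ P (j + 1))) : P u ↔ P v := by
  induction v, huv using Nat.le_induction with
  | base => rfl
  | succ v hv ih => exact (ih fun j h1 h2 => h j h1 (by omega)).trans (h v hv (by omega))

structure Sys where
  τ : Bool → ℕ → ℕ
  K : ℕ
  J : ℕ → Finset ℕ
  F : ℕ → ℝ
  inj : ∀ σ z σ' z', τ σ z = τ σ' z' → z = z'
  fin : ∀ t, ∃ Y, ∀ σ z, Y ≤ z → t ≤ τ σ z
  card : ∀ t, (J t).card ≤ K
  jump : ∀ t σ z, z ∉ J t → (τ σ z < t ↔ τ σ (z + 1) < t)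
  sum : ∀ t Y, (∀ σ z, Y ≤ z → t ≤ τ σ z) → F t = ∑ z ∈ range Y,
    aa z * ((if τ true z < t then 1 else 0) - (if τ false z < t then 1 else 0))

namespace Sys

variable (S : Sys)

def In (σ : Bool) (z t0 t1 : ℕ) : Prop := t0 ≤ S.τ σ z ∧ S.τ σ z < t1

instance (σ : Bool) (z t0 t1 : ℕ) : Decidable (S.In σ z t0 t1) :=
  inferInstanceAs (Decidable (_ ∧ _))

noncomputable def dl (t0 t1 z : ℕ) : ℝ :=
  (if S.In true z t0 t1 then 1 else 0) - (if S.In false z t0 t1 then 1 else 0)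

def Cr (x y t0 t1 : ℕ) : Prop :=
  ∃ σ, ∀ z, x ≤ z → z < y → S.In σ z t0 t1 ∧ ¬ S.In (!σ) z t0 t1

theorem Cr.sum {S : Sys} {x y t0 t1 : ℕ} (h : S.Cr x y t0 t1) (hxy : x ≤ y) :
    |∑ z ∈ Ico x y, aa z * S.dl t0 t1 z| = |ps aa y - ps aa x| := by
  obtain ⟨σ, hσ⟩ := h
  rw [ps, ps, ← sum_Ico_eq_sub _ hxy]
  cases σ
  · rw [← abs_neg, ← sum_neg_distrib]
    congr 1
    refine sum_congr rfl fun z hz => ?_
    have := hσ z (mem_Ico.1 hz).1 (mem_Ico.1 hz).2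
    rw [dl, if_pos this.1, if_neg (by simpa using this.2)]; ring
  · congr 1
    refine sum_congr rfl fun z hz => ?_
    have := hσ z (mem_Ico.1 hz).1 (mem_Ico.1 hz).2
    rw [dl, if_pos this.1, if_neg (by simpa using this.2)]; ring

theorem find_cr {t0 t1 y0 y1 : ℕ} (h01 : y0 ≤ y1) {h : ℝ} (hh : 0 ≤ h)
    (hs : (2 * S.K + 1) * h < |∑ z ∈ Ico y0 y1, aa z * S.dl t0 t1 z|) :
    ∃ x y, y0 ≤ x ∧ x ≤ y ∧ y ≤ y1 ∧ S.Cr x y t0 t1 ∧ h < |ps aa y - ps aa x| := by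
  by_contra hc
  push Not at hc
  have h1 := pieces aa (S.dl t0 t1) (S.J t0 ∪ S.J t1) (fun z hz => ?_) hh y0 h01
    (fun x y c1 c2 c3 c4 => ?_)
  · have h2 : ((S.J t0 ∪ S.J t1).card : ℝ) ≤ 2 * S.K := by
      have := card_union_le (S.J t0) (S.J t1)
      have := S.card t0; have := S.card t1
      exact_mod_cast (by omega : (S.J t0 ∪ S.J t1).card ≤ 2 * S.K)
    have := mul_le_mul_of_nonneg_right h2 hh
    linarith
  · rw [mem_union, not_or] at hz
    have e : ∀ σ, S.In σ (z + 1) t0 t1 ↔ S.In σ z t0 t1 := fun σ => by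
      have := S.jump t0 σ z hz.1; have := S.jump t1 σ z hz.2
      simp only [In]; omega
    rw [dl, dl, if_congr (e true) rfl rfl, if_congr (e false) rfl rfl]
  · by_cases hcr : S.Cr x y t0 t1
    · rw [hcr.sum c2]; exact hc x y c1 c2 c3 hcr
    · have h0 : S.dl t0 t1 x = 0 := by
        by_contra h0
        apply hcr
        by_cases e : S.In true x t0 t1
        · refine ⟨true, fun z z1 z2 => ?_⟩
          have := c4 z z1 z2
          simp only [dl, e, if_true] at this h0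
          simp only [Bool.not_true]
          split_ifs at this h0 <;> first | tauto | (exfalso; linarith) | (exfalso; simp at h0)
        · refine ⟨false, fun z z1 z2 => ?_⟩
          have := c4 z z1 z2
          simp only [dl, e, if_false] at this h0
          simp only [Bool.not_false]
          split_ifs at this h0 <;> first | tauto | (exfalso; linarith) | (exfalso; simp at h0)
      rw [sum_eq_zero fun z hz => by
        rw [c4 z (mem_Ico.1 hz).1 (mem_Ico.1 hz).2, h0, mul_zero]]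
      simpa using hh

theorem Cr.own {S : Sys} {x y t0 t1 : ℕ} (h : S.Cr x y t0 t1) (hxy : x < y) :
    ∃ u0 u1, t0 ≤ u0 ∧ u0 ≤ u1 ∧ u1 ≤ t1 ∧ S.Cr x y u0 u1 ∧
      (∀ t, u0 < t → t < u1 → ∃ j ∈ S.J t, x ≤ j ∧ j < y) ∧ ∃ σ z, x ≤ z ∧ S.τ σ z = u0 := by
  obtain ⟨σ, hσ⟩ := h
  obtain ⟨z1, m1, c1⟩ := exists_min_image (Ico x y) (S.τ σ) (nonempty_Ico.2 hxy)
  obtain ⟨z2, m2, c2⟩ := exists_max_image (Ico x y) (S.τ σ) (nonempty_Ico.2 hxy)
  have n1 := mem_Ico.1 m1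
  have n2 := mem_Ico.1 m2
  have i1 := (hσ z1 n1.1 n1.2).1
  have i2 := (hσ z2 n2.1 n2.2).1
  have := c1 z2 m2
  refine ⟨S.τ σ z1, S.τ σ z2 + 1, i1.1, by omega, i2.2, ⟨σ, fun z h1 h2 => ?_⟩, fun t h1 h2 => ?_,
    σ, z1, n1.1, rfl⟩
  · have d1 := c1 z (mem_Ico.2 ⟨h1, h2⟩)
    have d2 := c2 z (mem_Ico.2 ⟨h1, h2⟩)
    have d3 := (hσ z h1 h2).2
    simp only [In] at i1 i2 d3 ⊢
    omega
  · by_contra hc
    push Not at hc
    have e : ∀ u v, x ≤ u → u ≤ v → v < y → (S.τ σ u < t ↔ S.τ σ v < t) := fun u v d1 d2 d3 =>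
      no_jump (P := fun z => S.τ σ z < t) d2 fun j j1 j2 =>
        S.jump t σ j fun hj => by have := hc j hj (by omega); omega
    rcases le_total z1 z2 with d | d
    · have := e _ _ n1.1 d n2.2; omega
    · have := e _ _ n2.1 d n1.2; omega

theorem diff {t0 t1 : ℕ} (h01 : t0 ≤ t1) {Y : ℕ} (hY : ∀ σ z, Y ≤ z → t1 ≤ S.τ σ z) :
    S.F t1 - S.F t0 = ∑ z ∈ range Y, aa z * S.dl t0 t1 z := by
  rw [S.sum t1 Y hY, S.sum t0 Y fun σ z hz => h01.trans (hY σ z hz), ← sum_sub_distrib]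
  refine sum_congr rfl fun z _ => ?_
  rw [dl]
  split_ifs <;> first | (simp only [In] at *; omega) | ring

theorem Cr.time {S : Sys} {x y t0 t1 : ℕ} (hc : S.Cr x y t0 t1) (hxy : x ≤ y) {h : ℝ} (hh : 0 ≤ h)
    (h1 : |aa x| ≤ h) (h2 : h < |ps aa y - ps aa x|) : ∃ t, t0 < t ∧ t < t1 := by
  have h3 : x + 1 < y := by
    by_contra h3
    have : y = x ∨ y = x + 1 := by omega
    rcases this with rfl | rfl
    · rw [sub_self, abs_zero] at h2; linarith
    · rw [ps, ps, sum_range_succ, add_sub_cancel_left] at h2; linarith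
  obtain ⟨σ, hσ⟩ := hc
  have i1 := (hσ x le_rfl (by omega)).1
  have i2 := (hσ (x + 1) (by omega) h3).1
  have i3 : S.τ σ x ≠ S.τ σ (x + 1) := fun e => by have := S.inj _ _ _ _ e; omega
  simp only [In] at i1 i2
  exact ⟨max (S.τ σ x) (S.τ σ (x + 1)), by omega, by omega⟩

def Imp (m : ℕ) (h : ℝ) : Prop := ∃ T x0, ∀ x y t0 t1, T ≤ t0 → x0 ≤ x → x ≤ y →
  S.Cr x y t0 t1 → h < |ps aa y - ps aa x| →
  (∀ t, t0 < t → t < t1 → m ≤ ((S.J t).filter (· < x)).card) → False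

def Imp2 (m r : ℕ) (h : ℝ) : Prop := ∃ T x0, ∀ b x y t0 t1, T ≤ t0 → x0 ≤ b → b ≤ x → x ≤ y →
  S.Cr x y t0 t1 → h < |ps aa y - ps aa x| → (∀ σ z, z < b → ¬ S.In σ z t0 t1) →
  (∀ t, t0 < t → t < t1 → m ≤ ((S.J t).filter (· < b)).card ∧
    r ≤ ((S.J t).filter (y ≤ ·)).card) → False

theorem imp2_step {L : ℝ} (hL : Tendsto S.F atTop (𝓝 L)) {m r : ℕ}
    (h1 : ∀ h, 0 < h → S.Imp (m + 1) h) (h2 : ∀ h, 0 < h → S.Imp2 m (r + 1) h) {h : ℝ}
    (hh : 0 < h) : S.Imp2 m r h := by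
  have hK : (0 : ℝ) < 2 * S.K + 1 := by positivity
  have hh' : 0 < h / 3 / (2 * S.K + 1) := by positivity
  obtain ⟨T1, x1, H1⟩ := h1 _ hh'
  obtain ⟨T2, x2, H2⟩ := h2 _ hh'
  obtain ⟨T3, H3⟩ := Metric.tendsto_atTop.1 hL (h / 6) (by positivity)
  refine ⟨T1 + T2 + T3, x1 + x2, fun b x y t0 t1 c1 c2 c3 c4 c5 c6 c7 c8 => ?_⟩
  have hxy : x < y := by
    rcases c4.lt_or_eq with e | e
    · exact e
    · rw [e, sub_self, abs_zero] at c6; linarith
  obtain ⟨u0, u1, d1, d2, d3, d4, d5, -⟩ := c5.own hxy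
  obtain ⟨Y0, hY0⟩ := S.fin u1
  have e1 := S.diff d2 (Y := Y0 + y) fun σ z hz => hY0 σ z (by omega)
  rw [range_eq_Ico, ← sum_Ico_consecutive _ (Nat.zero_le b) (by omega : b ≤ Y0 + y),
    ← sum_Ico_consecutive _ c3 (by omega : x ≤ Y0 + y),
    ← sum_Ico_consecutive _ c4 (by omega : y ≤ Y0 + y)] at e1
  have c7' : ∀ σ z, z < b → ¬ S.In σ z u0 u1 := fun σ z hz hi =>
    c7 σ z hz ⟨d1.trans hi.1, lt_of_lt_of_le hi.2 d3⟩
  have e2 : ∑ z ∈ Ico 0 b, aa z * S.dl u0 u1 z = 0 := sum_eq_zero fun z hz => by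
    rw [dl, if_neg (c7' _ z (mem_Ico.1 hz).2), if_neg (c7' _ z (mem_Ico.1 hz).2)]; ring
  have e3 := d4.sum c4
  have e4 := H3 u0 (by omega)
  have e5 := H3 u1 (by omega)
  rw [Real.dist_eq, abs_lt] at e4 e5
  have e6 : (2 * S.K + 1) * (h / 3 / (2 * S.K + 1)) = h / 3 := by field_simp
  by_cases g1 : h / 3 < |∑ z ∈ Ico b x, aa z * S.dl u0 u1 z|
  · obtain ⟨x', y', f1, f2, f3, f4, f5⟩ := S.find_cr c3 hh'.le (by rw [e6]; exact g1)
    refine H2 b x' y' u0 u1 (by omega) (by omega) f1 f2 f4 f5 c7' fun t t1 t2 => ?_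
    obtain ⟨k1, k2⟩ := c8 t (by omega) (by omega)
    obtain ⟨j, j1, j2, j3⟩ := d5 t t1 t2
    refine ⟨k1, lt_of_le_of_lt k2 (card_lt_card ⟨fun z hz => ?_, fun hs => ?_⟩)⟩
    · rw [mem_filter] at hz ⊢; exact ⟨hz.1, by omega⟩
    · have := (mem_filter.1 (hs (mem_filter.2 ⟨j1, by omega⟩))).2; omega
  · have g2 : h / 3 < |∑ z ∈ Ico y (Y0 + y), aa z * S.dl u0 u1 z| := by
      by_contra g2
      rw [not_lt, abs_le] at g1 g2
      rw [← e3, lt_abs] at c6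
      rcases c6 with c6 | c6 <;> linarith
    obtain ⟨x', y', f1, f2, f3, f4, f5⟩ := S.find_cr (by omega : y ≤ Y0 + y) hh'.le
      (by rw [e6]; exact g2)
    refine H1 x' y' u0 u1 (by omega) (by omega) f2 f4 f5 fun t t1 t2 => ?_
    obtain ⟨k1, k2⟩ := c8 t (by omega) (by omega)
    obtain ⟨j, j1, j2, j3⟩ := d5 t t1 t2
    refine lt_of_le_of_lt k1 (card_lt_card ⟨fun z hz => ?_, fun hs => ?_⟩)
    · rw [mem_filter] at hz ⊢; exact ⟨hz.1, by omega⟩
    · have := (mem_filter.1 (hs (mem_filter.2 ⟨j1, by omega⟩))).2; omega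

theorem imp2_all {L : ℝ} (hL : Tendsto S.F atTop (𝓝 L)) {m : ℕ}
    (h1 : ∀ h, 0 < h → S.Imp (m + 1) h) (k : ℕ) :
    ∀ r, r + k = S.K + 1 → ∀ h, 0 < h → S.Imp2 m r h := by
  induction k with
  | zero =>
    intro r hr h hh
    obtain ⟨x0, hx0⟩ := aa_small hh
    refine ⟨0, x0, fun b x y t0 t1 _ c2 c3 c4 c5 c6 _ c8 => ?_⟩
    obtain ⟨t, t1, t2⟩ := c5.time c4 hh.le (hx0 x (by omega)) c6
    have := (c8 t t1 t2).2
    have := card_filter_le (S.J t) (y ≤ ·)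
    have := S.card t
    omega
  | succ k ih => intro r hr h hh; exact S.imp2_step hL h1 (ih (r + 1) (by omega)) hh

theorem imp_step {L : ℝ} (hL : Tendsto S.F atTop (𝓝 L)) {m : ℕ}
    (h1 : ∀ h, 0 < h → S.Imp (m + 1) h) {h : ℝ} (hh : 0 < h) : S.Imp m h := by
  classical
  obtain ⟨g, hg, hR⟩ := aa_rich hh
  obtain ⟨x1, H1⟩ := hR (2 * S.K + 1)
  obtain ⟨T2, x2, H2⟩ := S.imp2_all hL h1 (S.K + 1) 0 (by omega) (g / 2) (by positivity)
  refine ⟨T2, x1 + x2, fun x y t0 t1 c1 c2 c3 c4 c5 c6 => ?_⟩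
  obtain ⟨b, N, p, r1, r2, r3, r4, r5, r6⟩ := H1 x y (by omega) c3 c5
  have hw : ∀ i : Fin N, _ := fun i => Cr.own (S := S) (x := p i) (y := p (i + 1)) (t0 := t0)
    (t1 := t1) (c4.imp fun σ hσ z z1 z2 => hσ z
      (by have := r4.monotone (Nat.zero_le i); omega)
      (by have := r4.monotone (show (i : ℕ) + 1 ≤ N from i.2); omega)) (r4 (Nat.lt_succ_self _))
  choose u0 u1 w1 w2 w3 w4 w5 w6 using hw
  have hbad : ∀ q ∈ (univ : Finset Bool) ×ˢ range b,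
      (univ.filter fun i : Fin N => S.In q.1 q.2 (u0 i) (u1 i)).card ≤ S.K := by
    rintro ⟨σ, z⟩ hq
    have hz : z < b := by simpa using hq
    have hj : ∀ i : Fin N, S.In σ z (u0 i) (u1 i) →
        ∃ j ∈ S.J (S.τ σ z), p i ≤ j ∧ j < p (i + 1) := by
      intro i hi
      refine w5 i _ (lt_of_le_of_ne hi.1 fun e => ?_) hi.2
      obtain ⟨σ', z', k1, k2⟩ := w6 i
      have := S.inj _ _ _ _ (k2.trans e)
      have := r4.monotone (Nat.zero_le i)
      omega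
    refine le_trans (card_le_card_of_surjOn (idx p) ?_ |>.trans' (le_of_eq
      (card_image_of_injective _ Fin.val_injective).symm)) (S.card (S.τ σ z))
    intro i hi
    obtain ⟨i, hi', rfl⟩ := mem_image.1 (mem_coe.1 hi)
    obtain ⟨j, j1, j2, j3⟩ := hj i (mem_filter.1 hi').2
    exact ⟨j, j1, idx_eq r4 j2 j3⟩
  have hcard := card_biUnion_le_card_mul _ _ _ hbad
  rw [card_product, card_univ, Fintype.card_bool, card_range] at hcard
  obtain ⟨i, hi⟩ : ∃ i : Fin N, i ∉ ((univ : Finset Bool) ×ˢ range b).biUnion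
      fun q => univ.filter fun i : Fin N => S.In q.1 q.2 (u0 i) (u1 i) := by
    by_contra hc
    push Not at hc
    rw [eq_univ_of_forall hc, card_univ, Fintype.card_fin] at hcard
    nlinarith
  have k0 := r4.monotone (Nat.zero_le i)
  refine H2 b (p i) (p (i + 1)) (u0 i) (u1 i) (c1.trans (w1 i)) (by omega) (by omega)
    (r4.monotone (Nat.le_succ _)) (w4 i) (by linarith [r6 i i.2]) (fun σ z hz hin => hi ?_)
    fun t t1 t2 => ⟨le_trans (c6 t (lt_of_le_of_lt (w1 i) t1) (lt_of_lt_of_le t2 (w3 i)))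
      (card_le_card fun z hz => ?_), Nat.zero_le _⟩
  · exact mem_biUnion.2 ⟨(σ, z), by simpa using hz, mem_filter.2 ⟨mem_univ _, hin⟩⟩
  · rw [mem_filter] at hz ⊢; exact ⟨hz.1, by omega⟩

theorem imp_all {L : ℝ} (hL : Tendsto S.F atTop (𝓝 L)) (k : ℕ) :
    ∀ m, m + k = S.K + 1 → ∀ h, 0 < h → S.Imp m h := by
  induction k with
  | zero =>
    intro m hm h hh
    obtain ⟨x0, hx0⟩ := aa_small hh
    refine ⟨0, x0, fun x y t0 t1 _ c2 c4 c5 c6 c8 => ?_⟩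
    obtain ⟨t, t1, t2⟩ := c5.time c4 hh.le (hx0 x c2) c6
    have := c8 t t1 t2
    have := card_filter_le (S.J t) (· < x)
    have := S.card t
    omega
  | succ k ih => intro m hm h hh; exact S.imp_step hL (ih (m + 1) (by omega)) hh

theorem rigid {L : ℝ} (hL : Tendsto S.F atTop (𝓝 L)) : L = 0 := by
  by_contra h0
  have hp : 0 < |L| := abs_pos.2 h0
  have hK : (0 : ℝ) < 2 * S.K + 1 := by positivity
  have hh : 0 < |L| / 2 / (2 * S.K + 1) := by positivity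
  obtain ⟨T, x0, H⟩ := S.imp_all hL (S.K + 1) 0 (by omega) _ hh
  obtain ⟨T', H'⟩ := Metric.tendsto_atTop.1 hL (|L| / 2) (by positivity)
  obtain ⟨Y0, hY0⟩ := S.fin T
  obtain ⟨t1, ht1, ht2⟩ : ∃ t1, T + T' ≤ t1 ∧ ∀ σ z, z < Y0 + x0 → S.τ σ z < t1 := by
    refine ⟨T + T' + ((univ ×ˢ range (Y0 + x0)).sup fun q : Bool × ℕ => S.τ q.1 q.2) + 1,
      by omega, fun σ z hz => ?_⟩
    have := le_sup (s := univ ×ˢ range (Y0 + x0)) (f := fun q : Bool × ℕ => S.τ q.1 q.2)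
      (b := (σ, z)) (by simpa using hz)
    simp only at this
    omega
  obtain ⟨Y1, hY1⟩ := S.fin t1
  have e1 := S.sum t1 (Y0 + x0 + Y1) fun σ z hz => hY1 σ z (by omega)
  rw [range_eq_Ico, ← sum_Ico_consecutive _ (Nat.zero_le (Y0 + x0)) (by omega),
    sum_eq_zero (s := Ico 0 (Y0 + x0)) (fun z hz => by
      rw [if_pos (ht2 _ z (mem_Ico.1 hz).2), if_pos (ht2 _ z (mem_Ico.1 hz).2)]; ring),
    zero_add, sum_congr rfl (g := fun z => aa z * S.dl T t1 z) (fun z hz => by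
      have := hY0 true z (by have := (mem_Ico.1 hz).1; omega)
      have := hY0 false z (by have := (mem_Ico.1 hz).1; omega)
      simp only [dl, In, *, true_and])] at e1
  have e2 := H' t1 (by omega)
  have e3 := abs_sub_abs_le_abs_sub L (S.F t1)
  rw [Real.dist_eq, abs_sub_comm] at e2
  obtain ⟨x, y, f1, f2, f3, f4, f5⟩ := S.find_cr (t0 := T) (t1 := t1) (y0 := Y0 + x0)
    (y1 := Y0 + x0 + Y1) (by omega) hh.le (by
      rw [← e1, mul_div_cancel₀ _ hK.ne']; linarith)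
  exact H x y T t1 le_rfl (by omega) f2 f4 f5 fun t _ _ => Nat.zero_le _

end Sys

end Pool.Agent.H.MP_d75d7a_an
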